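import Pool.Agent.Lib.EMU.S.Rels

/-!
# MP_9aab3b_gt, module S.Conv: conversion of equivariant maps between the two models

PROOF. `conv f` is `OnePoint.map eT ∘ f ∘ OnePoint.map eS.symm`; continuity: `Homeomorph.onePointCongr` (or `OnePoint.continuous_map` with the closed embeddings). Equivariance: `eS` intertwines
`spAct g` and `sphAct g` (`rfl` on finite points, `(tl g⁻¹ p) = (p.1, g⁻¹ * p.2)`), and by `moved_iff` `Lift (Moved g) y z` is equivalent to `OnePoint.map eT z = thomAct g (OnePoint.map eT y)` (cases on `y`, `z`).
`conv' f` is the inverse construction. `conv_conv'`: `OnePoint.map` of inverse maps.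
`conv_htpy`: `F' (x, t) = (conv (F t)) x`, continuous as `(x, t) ↦ (F t).toFun (OnePoint.map eS.symm x)` is.
`conv_susp`: `GMap` ext; on `∞` both are `∞` (`base`); on `(v, t)` use `IsSusp` (cases of `Lift`), `plusW`; `conv_incl`: the same with `plusZero`.
-/

set_option autoImplicit false

open scoped Topology OnePoint

namespace EMU

noncomputable section

variable {G : Type} [Group G] [Fintype G] {a b k j : ℕ}

theorem lift_moved_iff {m : ℕ} (g : G) (y z : MUcoeff.Th G k j m) :
    MUcoeff.Lift (MUcoeff.Moved g) y z ↔ OnePoint.map eT z = thomAct g (OnePoint.map eT y) := by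
  induction y using OnePoint.rec with
  | infty =>
    induction z using OnePoint.rec with
    | infty => exact ⟨fun _ => rfl, fun _ => Or.inl ⟨rfl, rfl⟩⟩
    | coe z =>
      constructor
      · rintro (⟨-, h⟩ | ⟨x₀, -, h, -, -⟩)
        · exact absurd h (OnePoint.coe_ne_infty z)
        · exact absurd h (OnePoint.infty_ne_coe x₀)
      · intro h
        exact absurd h (OnePoint.coe_ne_infty (eT z))
  | coe y =>
    induction z using OnePoint.rec with
    | infty =>
      constructor
      · rintro (⟨h, -⟩ | ⟨-, y₀, -, h, -⟩)
        · exact absurd h (OnePoint.coe_ne_infty y)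
        · exact absurd h (OnePoint.infty_ne_coe y₀)
      · intro h
        exact absurd h (OnePoint.infty_ne_coe _)
    | coe z =>
      have h1 : (OnePoint.map eT (z : MUcoeff.Th G k j m) = thomAct g (OnePoint.map eT
          (y : MUcoeff.Th G k j m))) ↔ eT z = tautAct g (eT y) :=
        OnePoint.coe_injective.eq_iff
      rw [h1, ← moved_iff]
      constructor
      · rintro (⟨h, -⟩ | ⟨x₀, y₀, hx, hy, h⟩)
        · exact absurd h (OnePoint.coe_ne_infty y)
        · rw [OnePoint.coe_injective hx, OnePoint.coe_injective hy]
          exact h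
      · intro h
        exact Or.inr ⟨y, z, rfl, rfl, h⟩

private theorem cv_map_symm {X Y : Type} [TopologicalSpace X] [TopologicalSpace Y] (e : X ≃ₜ Y)
    (y : OnePoint Y) : OnePoint.map e (OnePoint.map e.symm y) = y := by
  induction y using OnePoint.rec with
  | infty => rfl
  | coe y => exact congrArg OnePoint.some (e.apply_symm_apply y)

private theorem cv_symm_map {X Y : Type} [TopologicalSpace X] [TopologicalSpace Y] (e : X ≃ₜ Y)
    (x : OnePoint X) : OnePoint.map e.symm (OnePoint.map e x) = x := by
  induction x using OnePoint.rec with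
  | infty => rfl
  | coe x => exact congrArg OnePoint.some (e.symm_apply_apply x)

private theorem cv_cont {X Y : Type} [TopologicalSpace X] [TopologicalSpace Y] (e : X ≃ₜ Y) :
    Continuous (OnePoint.map e : OnePoint X → OnePoint Y) :=
  e.onePointCongr.continuous

private theorem cv_symm_act (g : G) (x : Sph G a k) :
    OnePoint.map (eS (G := G) (a := a) (k := k)).symm (sphAct g x) =
      MUcoeff.spAct g (OnePoint.map (eS (G := G) (a := a) (k := k)).symm x) := by
  induction x using OnePoint.rec with
  | infty => rfl
  | coe x => rfl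

private theorem cv_act (g : G) (x : MUcoeff.Sp G a k) :
    OnePoint.map (eS (G := G) (a := a) (k := k)) (MUcoeff.spAct g x) =
      sphAct g (OnePoint.map (eS (G := G) (a := a) (k := k)) x) := by
  induction x using OnePoint.rec with
  | infty => rfl
  | coe x => rfl

private theorem cv_ext {f f' : GMap G a b k j} (h : f.toFun = f'.toFun) : f = f' := by
  cases f
  cases f'
  cases h
  rfl

/-- from the matrix model to the operator model -/
def conv (f : MUcoeff.GMap G a b k j) : GMap G a b k j where
  toFun x := OnePoint.map eT (f.toFun (OnePoint.map eS.symm x))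
  cont := (cv_cont eT).comp (f.cont.comp (cv_cont eS.symm))
  base := by
    show OnePoint.map eT (f.toFun ∞) = ∞
    rw [f.base]
    rfl
  equi g x := by
    show OnePoint.map eT (f.toFun (OnePoint.map eS.symm (sphAct g x))) =
      thomAct g (OnePoint.map eT (f.toFun (OnePoint.map eS.symm x)))
    rw [cv_symm_act]
    exact (lift_moved_iff g _ _).1 (f.equi g _)

/-- from the operator model to the matrix model -/
def conv' (f : GMap G a b k j) : MUcoeff.GMap G a b k j where
  toFun x := OnePoint.map eT.symm (f.toFun (OnePoint.map eS x))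
  cont := (cv_cont eT.symm).comp (f.cont.comp (cv_cont eS))
  base := by
    show OnePoint.map eT.symm (f.toFun ∞) = ∞
    rw [f.base]
    rfl
  equi g x := by
    refine (lift_moved_iff g _ _).2 ?_
    show OnePoint.map eT (OnePoint.map eT.symm (f.toFun (OnePoint.map eS (MUcoeff.spAct g x)))) =
      thomAct g (OnePoint.map eT (OnePoint.map eT.symm (f.toFun (OnePoint.map eS x))))
    rw [cv_map_symm, cv_map_symm, cv_act]
    exact f.equi g _

theorem conv_conv' (f : GMap G a b k j) : conv (conv' f) = f := by
  apply cv_ext
  funext x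
  show OnePoint.map eT (OnePoint.map eT.symm (f.toFun (OnePoint.map eS
    (OnePoint.map eS.symm x)))) = f.toFun x
  rw [cv_map_symm, cv_map_symm]

theorem conv_htpy {f f' : MUcoeff.GMap G a b k j} (h : MUcoeff.Htpy f f') :
    GHtpy (conv f) (conv f') := by
  obtain ⟨F, hF, h0, h1⟩ := h
  refine ⟨fun p => (conv (F p.2)).toFun p.1, ?_, fun t => (conv (F t)).base,
    fun g x t => (conv (F t)).equi g x, fun x => ?_, fun x => ?_⟩
  · have h2 : Continuous fun p : Sph G a k × unitInterval =>
        ((OnePoint.map eS.symm p.1, p.2) : MUcoeff.Sp G a k × unitInterval) :=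
      ((cv_cont eS.symm).comp continuous_fst).prodMk continuous_snd
    exact (cv_cont eT).comp (hF.comp h2)
  · show (conv (F 0)).toFun x = (conv f).toFun x
    rw [h0]
  · show (conv (F 1)).toFun x = (conv f').toFun x
    rw [h1]

theorem conv_susp {f : MUcoeff.GMap G a b k j} {f' : MUcoeff.GMap G a b (k + 1) j}
    (h : MUcoeff.IsSusp f f') : conv f' = (conv f).susp := by
  apply cv_ext
  funext x
  induction x using OnePoint.rec with
  | infty => exact (conv f').base
  | coe x =>
    obtain ⟨v, t⟩ := x
    have h1 := h (fun p => v p) (fun i => t i)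
    have h2 : (conv f').toFun (OnePoint.some (v, t)) = OnePoint.map eT
      (f'.toFun (OnePoint.some (fun p => v p, fun i => t i))) := rfl
    have h3 : (conv f).susp.toFun (OnePoint.some (v, t)) = OnePoint.map
      (fun y => stabTaut (upS_inj k j) (upS_not_mem k j) (dimS (Fintype.card G) k j b) y
        (ext Sum.inl v)) (OnePoint.map eT (f.toFun (OnePoint.some
          (fun p => v (p.1.castSucc, p.2), fun i => t i)))) := rfl
    refine h2.trans (Eq.trans ?_ h3.symm)
    rcases h1 with ⟨h4, h5⟩ | ⟨y, y', h4, h5, h6⟩
    · rw [h4, h5]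
      rfl
    · rw [h4, h5]
      exact congrArg OnePoint.some (plusW h6 (dimS (Fintype.card G) k j b))

theorem conv_incl {f : MUcoeff.GMap G a b k j} {f' : MUcoeff.GMap G a b k (j + 1)}
    (h : MUcoeff.IsIncl f f') : conv f' = (conv f).incl := by
  apply cv_ext
  funext x
  have h1 := h (OnePoint.map eS.symm x)
  have h2 : (conv f').toFun x = OnePoint.map eT (f'.toFun (OnePoint.map eS.symm x)) := rfl
  have h3 : (conv f).incl.toFun x = OnePoint.map
    (fun y => stabTaut (upI_inj k j) (upI_not_mem k j) (dimI (Fintype.card G) k j b) y 0)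
      (OnePoint.map eT (f.toFun (OnePoint.map eS.symm x))) := rfl
  refine h2.trans (Eq.trans ?_ h3.symm)
  rcases h1 with ⟨h4, h5⟩ | ⟨y, y', h4, h5, h6⟩
  · rw [h4, h5]
    rfl
  · rw [h4, h5]
    exact congrArg OnePoint.some (plusZero h6 (dimI (Fintype.card G) k j b))

end

end EMU
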