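import Mathlib

/-!
# MP_9aab3b_gt: the coefficients `π_{a-2b}^G(MU)` of tom Dieck's spectrum (definitions used in the statement)

`G` is a finite group, `V_k` the sum of `k` copies of the complex regular representation `ℂ[G]`, with orthonormal basis `Fin k × G` on which `G` acts by left
translation of the second coordinate, `U_j` another sum of `j` copies. `Ix G k j` is the basis of `V_k ⊕ U_j`.

* `Tot G k j m`: the total space of the tautological bundle over the Grassmannian of the `m`-dimensional subspaces of `V_k ⊕ U_j`: pairs of a hermitian idempotent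
  matrix `P` of rank `m` (the orthogonal projection onto the subspace) and a vector `u` with `P u = u`. Its one point compactification is the Thom space.
* `GMap G a b k j`: based equivariant maps `S^{V_k ⊕ ℝ^a} → Th (Gr_{dim V_k + b} (V_k ⊕ U_j))`.
* tom Dieck's spectrum has `MU(V) = Th (Gr_{dim V} (V ⊕ U))`, `U = ⋃ U_j` a complete universe, with structure maps
  `S^W ∧ MU(V) → MU(V ⊕ W)`, `(w, (E, e)) ↦ (E ⊕ W, e + w)`. `IsSusp f f'`: `f'` is obtained from `f` by this structure map for `W` one more regular representation.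
  `IsIncl f f'`: `f'` is `f` followed by the map induced by `U_j ⊆ U_{j+1}`.
* `PiMU G a b` is the colimit over `k, j` of the sets of based equivariant homotopy classes: `π_{a-2b}^G(MU)` (the spectrum at the representations `V_k ⊕ ℂ^b`; the `V_k` are
  cofinal, spheres are compact).
-/

set_option autoImplicit false

open scoped Topology OnePoint

namespace MUcoeff

/-- left translation on the second coordinate -/
def tl {A G : Type} [Group G] (g : G) (p : A × G) : A × G := (p.1, g * p.2)

/-- orthonormal basis of `V_k ⊕ U_j` -/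
abbrev Ix (G : Type) (k j : ℕ) : Type := (Fin k ⊕ Fin j) × G

/-- `P` is the orthogonal projection onto a subspace of dimension `m` which contains `u` -/
structure IsPt {S : Type} [Fintype S] (m : ℕ) (P : Matrix S S ℂ) (u : S → ℂ) : Prop where
  idem : P * P = P
  herm : P.IsHermitian
  rank : P.rank = m
  mem : P.mulVec u = u

/-- total space of the tautological bundle over the Grassmannian -/
abbrev Tot (G : Type) [Fintype G] (k j m : ℕ) : Type :=
  {y : Matrix (Ix G k j) (Ix G k j) ℂ × (Ix G k j → ℂ) // IsPt m y.1 y.2}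

/-- Thom space -/
abbrev Th (G : Type) [Fintype G] (k j m : ℕ) : Type := OnePoint (Tot G k j m)

/-- the sphere `S^{V_k ⊕ ℝ^a}` -/
abbrev Sp (G : Type) (a k : ℕ) : Type := OnePoint ((Fin k × G → ℂ) × (Fin a → ℝ))

/-- the relation which is `R` on the finite points and relates `∞` only to `∞` -/
def Lift {X Y : Type} (R : X → Y → Prop) (x : OnePoint X) (y : OnePoint Y) : Prop :=
  (x = ∞ ∧ y = ∞) ∨ ∃ (x₀ : X) (y₀ : Y), x = OnePoint.some x₀ ∧ y = OnePoint.some y₀ ∧ R x₀ y₀

/-- action of `g` on the sphere -/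
def spAct {G : Type} [Group G] {a k : ℕ} (g : G) : Sp G a k → Sp G a k :=
  OnePoint.map fun x => (fun p => x.1 (tl g⁻¹ p), x.2)

/-- `y' = g y`, for `y = (P, u)` and `y' = (g P g⁻¹, g u)` -/
def Moved {G : Type} [Group G] [Fintype G] {k j m : ℕ} (g : G) (y y' : Tot G k j m) : Prop :=
  (∀ p q, y'.1.1 p q = y.1.1 (tl g⁻¹ p) (tl g⁻¹ q)) ∧ ∀ p, y'.1.2 p = y.1.2 (tl g⁻¹ p)

/-- based equivariant maps from `S^{V_k ⊕ ℝ^a}` to the Thom space over `Gr_{dim V_k + b} (V_k ⊕ U_j)` -/
structure GMap (G : Type) [Group G] [Fintype G] (a b k j : ℕ) where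
  /-- the map -/
  toFun : Sp G a k → Th G k j (k * Fintype.card G + b)
  cont : Continuous toFun
  base : toFun ∞ = ∞
  equi : ∀ (g : G) (x : Sp G a k), Lift (Moved g) (toFun x) (toFun (spAct g x))

variable {G : Type} [Group G] [Fintype G] {a b k j : ℕ}

/-- based equivariant homotopy -/
def Htpy (f f' : GMap G a b k j) : Prop :=
  ∃ F : unitInterval → GMap G a b k j,
    Continuous (fun p : Sp G a k × unitInterval => (F p.2).toFun p.1) ∧ F 0 = f ∧ F 1 = f'

/-- the basis of `V_k ⊕ U_j` in that of `V_{k+1} ⊕ U_j` -/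
def upV (p : Ix G k j) : Ix G (k + 1) j := (Sum.map Fin.castSucc id p.1, p.2)

/-- the basis of the last copy of the regular representation in `V_{k+1}` -/
def lastV (g : G) : Ix G (k + 1) j := (Sum.inl (Fin.last k), g)

/-- the basis of `V_k ⊕ U_j` in that of `V_k ⊕ U_{j+1}` -/
def upU (p : Ix G k j) : Ix G k (j + 1) := (Sum.map id Fin.castSucc p.1, p.2)

/-- the basis of the last copy of the regular representation in `U_{j+1}` -/
def lastU (g : G) : Ix G k (j + 1) := (Sum.inr (Fin.last j), g)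

/-- `y = (P, u)`, `y' = (P ⊕ 1, u + w)`, `w` in the last copy of the regular representation -/
def PlusW {m m' : ℕ} (w : G → ℂ) (y : Tot G k j m) (y' : Tot G (k + 1) j m') : Prop :=
  (∀ p q, y'.1.1 (upV p) (upV q) = y.1.1 p q) ∧ (∀ g, y'.1.1 (lastV g) (lastV g) = 1) ∧
    (∀ g h, g ≠ h → y'.1.1 (lastV g) (lastV h) = 0) ∧ (∀ p g, y'.1.1 (upV p) (lastV g) = 0) ∧
      (∀ p, y'.1.2 (upV p) = y.1.2 p) ∧ ∀ g, y'.1.2 (lastV g) = w g

/-- `y = (P, u)`, `y'` its image under `V_k ⊕ U_j ⊆ V_k ⊕ U_{j+1}` -/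
def PlusZero {m : ℕ} (y : Tot G k j m) (y' : Tot G k (j + 1) m) : Prop :=
  (∀ p q, y'.1.1 (upU p) (upU q) = y.1.1 p q) ∧ (∀ g q, y'.1.1 (lastU g) q = 0) ∧
    (∀ p, y'.1.2 (upU p) = y.1.2 p) ∧ ∀ g, y'.1.2 (lastU g) = 0

/-- `f'` is the suspension of `f` by the regular representation -/
def IsSusp (f : GMap G a b k j) (f' : GMap G a b (k + 1) j) : Prop :=
  ∀ (v : Fin (k + 1) × G → ℂ) (t : Fin a → ℝ),
    Lift (PlusW fun g => v (Fin.last k, g))
      (f.toFun (OnePoint.some (fun p => v (p.1.castSucc, p.2), t))) (f'.toFun (OnePoint.some (v, t)))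

/-- `f'` is `f` in the larger universe -/
def IsIncl (f : GMap G a b k j) (f' : GMap G a b k (j + 1)) : Prop :=
  ∀ x, Lift PlusZero (f.toFun x) (f'.toFun x)

variable (G a b)

/-- the relations: homotopy, suspension, enlargement of the universe -/
inductive Rel : (Σ (k j : ℕ), GMap G a b k j) → (Σ (k j : ℕ), GMap G a b k j) → Prop
  | htpy {k j : ℕ} (f f' : GMap G a b k j) : Htpy f f' → Rel ⟨k, j, f⟩ ⟨k, j, f'⟩
  | susp {k j : ℕ} (f : GMap G a b k j) (f' : GMap G a b (k + 1) j) :
      IsSusp f f' → Rel ⟨k, j, f⟩ ⟨k + 1, j, f'⟩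
  | incl {k j : ℕ} (f : GMap G a b k j) (f' : GMap G a b k (j + 1)) :
      IsIncl f f' → Rel ⟨k, j, f⟩ ⟨k, j + 1, f'⟩

/-- `π_{a-2b}^G(MU)` (the underlying pointed set) -/
def PiMU : Type := Quot (Rel G a b)

/-- the zero element: the class of the constant map -/
def zero : PiMU G a b :=
  Quot.mk _ ⟨0, 0, ⟨fun _ => ∞, continuous_const, rfl, fun _ _ => Or.inl ⟨rfl, rfl⟩⟩⟩

end MUcoeff
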