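import Pool.Agent.Lib.EMU.S.Conv
import Pool.Agent.Lib.EMU.H.Final

/-!
# MP_9aab3b_gt, module S.Fin: the result in the matrix model

PROOF. `convPi` is induced by `⟨k, j, f⟩ ↦ ⟨k, j, conv f⟩` (`conv_htpy`, `conv_susp`, `conv_incl`). `convPi_zero`: `conv` of the constant map is the constant map. If `x = Quot.mk _ ⟨k, j, f⟩ ≠ 0` in the operator
model then `x = convPi (Quot.mk _ ⟨k, j, conv' f⟩)` (`conv_conv'`), so that element is not zero.
-/

set_option autoImplicit false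

open scoped Topology OnePoint

namespace EMU

variable {G : Type} [Group G] [Fintype G] {a b : ℕ}

/-- the map between the two models -/
noncomputable def convPi : MUcoeff.PiMU G a b → PiMU G a b :=
  Quot.lift (fun r => Quot.mk _ ⟨r.1, r.2.1, conv r.2.2⟩) (by
    rintro _ _ (⟨f, f', h⟩ | ⟨f, f', h⟩ | ⟨f, f', h⟩)
    · exact Quot.sound (Rel.htpy _ _ (conv_htpy h))
    · rw [conv_susp h]
      exact Quot.sound (Rel.susp _)
    · rw [conv_incl h]
      exact Quot.sound (Rel.incl _))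

theorem convPi_zero : convPi (MUcoeff.zero G a b) = PiMU.zero G a b := by
  show Quot.mk _ _ = Quot.mk _ _
  congr 3

theorem exists_ne_matrix (h : ∃ x : PiMU G a b, x ≠ PiMU.zero G a b) :
    ∃ x : MUcoeff.PiMU G a b, x ≠ MUcoeff.zero G a b := by
  obtain ⟨x, hx⟩ := h
  obtain ⟨⟨k, j, f⟩, rfl⟩ := Quot.exists_rep x
  refine ⟨Quot.mk _ ⟨k, j, conv' f⟩, fun h0 => hx ?_⟩
  have h1 := congrArg convPi h0
  rw [convPi_zero] at h1
  rw [← h1]
  show Quot.mk _ _ = Quot.mk _ (⟨k, j, conv (conv' f)⟩ : Repr G a b)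
  rw [conv_conv']

/-- `π_{-3}^G(MU) ≠ 0` for `G = Gp`, in the matrix model -/
theorem exists_ne_zero_matrix : ∃ x : MUcoeff.PiMU Gp 3 3, x ≠ MUcoeff.zero Gp 3 3 :=
  exists_ne_matrix exists_ne_zero

end EMU
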