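import Pool.Agent.Lib.EMU.S.Defs
import Pool.Agent.Lib.EMU.A.PiMU

/-!
# MP_9aab3b_gt, module S.Op: matrices and operators, the homeomorphisms between the two models of the total space and of the sphere

PROOF. `opM_apply`: by definition. `opM_matOf`: two operators which agree on the basis vectors `single q 1` are equal (`v = ∑ q, v q • single q 1`); `matOf_opM`: evaluate at `single q 1`.
`isTaut_opM`: `opM (M * N) = opM M ∘ opM N` (`Matrix.mulVec_mulVec`), so idempotent; symmetric: `⟪M v, w⟫ = ∑ p q, conj (M p q * v q) * w p` and `conj (M p q) = M q p` (`herm`);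
rank: `Matrix.rank M = finrank (range M.mulVecLin)` and `opM M` is `M.mulVecLin` conjugated by the linear equivalence `WithLp.linearEquiv 2 ℂ (S → ℂ)`; `mem`: direct.
(Alternatively use `Matrix.toEuclideanCLM`, `Matrix.toEuclideanLin`, `Matrix.isHermitian_iff_isSymmetric`.)
`isPt_matOf`: with `M = matOf x.1`, `opM M = x.1` (`opM_matOf`), the same computations backwards: `opM (M * M) = opM M` gives `M * M = M` (`matOf_opM`); hermitian: `⟪x.1 (single q 1), single p 1⟫ = …`.
`eT`: continuity of `M ↦ opM M`: linear on a finite dimensional space (`LinearMap.continuous_of_finiteDimensional`) or an explicit continuous formula; of `T ↦ T (single q 1) p`: continuous linear; `toLp`, `ofLp` are continuous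
(`PiLp.continuous_toLp`, `PiLp.continuous_ofLp`).
`eS`: the same.
-/

set_option autoImplicit false

open scoped Topology OnePoint

namespace EMU

noncomputable section

section

variable {S : Type} [Fintype S]

/-- the operator of a matrix -/
def opM (M : Matrix S S ℂ) : EuclideanSpace ℂ S →L[ℂ] EuclideanSpace ℂ S :=
  LinearMap.toContinuousLinearMap
    { toFun := fun v => WithLp.toLp 2 (M.mulVec fun q => v q)
      map_add' := fun v w => by
        ext p
        simp [Matrix.mulVec, dotProduct, mul_add, Finset.sum_add_distrib]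
      map_smul' := fun c v => by
        ext p
        simp [Matrix.mulVec, dotProduct, Finset.mul_sum, mul_left_comm] }

theorem opM_apply (M : Matrix S S ℂ) (v : EuclideanSpace ℂ S) (p : S) :
    opM M v p = ∑ q, M p q * v q := rfl

open Classical in
/-- the matrix of an operator -/
def matOf (T : EuclideanSpace ℂ S →L[ℂ] EuclideanSpace ℂ S) : Matrix S S ℂ :=
  fun p q => T (EuclideanSpace.single q 1) p

theorem opM_matOf (T : EuclideanSpace ℂ S →L[ℂ] EuclideanSpace ℂ S) : opM (matOf T) = T := by
  classical
  apply ContinuousLinearMap.ext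
  intro v
  ext p
  have hv : v = ∑ q, v q • (EuclideanSpace.single q (1 : ℂ)) := by
    ext i
    simp [Pi.single_apply]
  rw [opM_apply]
  conv_rhs => rw [hv]
  rw [map_sum]
  simp [matOf, mul_comm]

theorem matOf_opM (M : Matrix S S ℂ) : matOf (opM M) = M := by
  classical
  ext p q
  simp only [matOf, opM_apply]
  simp

private theorem opM_mul (M N : Matrix S S ℂ) (v : EuclideanSpace ℂ S) :
    opM (M * N) v = opM M (opM N v) := by
  have h := Matrix.mulVec_mulVec (fun q => v q) M N
  show WithLp.toLp 2 ((M * N).mulVec fun q => v q) = WithLp.toLp 2 (M.mulVec (N.mulVec fun q => v q))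
  rw [h]

private theorem opM_inner {M : Matrix S S ℂ} (hM : M.IsHermitian) (v w : EuclideanSpace ℂ S) :
    inner ℂ (opM M v) w = inner ℂ v (opM M w) := by
  rw [EuclideanSpace.inner_eq_star_dotProduct, EuclideanSpace.inner_eq_star_dotProduct]
  show (w.ofLp : S → ℂ) ⬝ᵥ star (M.mulVec v.ofLp) = (M.mulVec w.ofLp) ⬝ᵥ star v.ofLp
  rw [Matrix.star_mulVec, hM.eq, dotProduct_comm, ← Matrix.dotProduct_mulVec, dotProduct_comm]

private theorem finrank_range_opM (M : Matrix S S ℂ) :
    Module.finrank ℂ (LinearMap.range (opM M : EuclideanSpace ℂ S →ₗ[ℂ] EuclideanSpace ℂ S)) =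
      M.rank := by
  have h : (opM M : EuclideanSpace ℂ S →ₗ[ℂ] EuclideanSpace ℂ S) =
      ((WithLp.linearEquiv 2 ℂ (S → ℂ)).symm : (S → ℂ) →ₗ[ℂ] EuclideanSpace ℂ S) ∘ₗ
        (M.mulVecLin ∘ₗ ((WithLp.linearEquiv 2 ℂ (S → ℂ)) : EuclideanSpace ℂ S →ₗ[ℂ] (S → ℂ))) := by
    apply LinearMap.ext
    intro v
    rfl
  rw [h, LinearMap.range_comp, LinearMap.range_comp_of_range_eq_top _ (LinearEquiv.range _)]
  rw [Matrix.rank]
  exact LinearEquiv.finrank_map_eq (WithLp.linearEquiv 2 ℂ (S → ℂ)).symm _

theorem isTaut_opM {m : ℕ} {M : Matrix S S ℂ} {u : S → ℂ} (h : MUcoeff.IsPt m M u) :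
    IsTaut m (opM M, (WithLp.toLp 2 u : EuclideanSpace ℂ S)) := by
  refine ⟨fun v => ?_, fun v w => opM_inner h.herm v w, ?_, ?_⟩
  · show opM M (opM M v) = opM M v
    rw [← opM_mul, h.idem]
  · show Module.finrank ℂ (LinearMap.range (opM M : EuclideanSpace ℂ S →ₗ[ℂ] EuclideanSpace ℂ S)) = m
    rw [finrank_range_opM, h.rank]
  · show WithLp.toLp 2 (M.mulVec u) = WithLp.toLp 2 u
    rw [h.mem]

theorem isPt_matOf {m : ℕ} {x : (EuclideanSpace ℂ S →L[ℂ] EuclideanSpace ℂ S) × EuclideanSpace ℂ S}
    (h : IsTaut m x) : MUcoeff.IsPt m (matOf x.1) (fun p => x.2 p) := by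
  classical
  refine ⟨?_, ?_, ?_, ?_⟩
  · have h1 : opM (matOf x.1 * matOf x.1) = opM (matOf x.1) := by
      apply ContinuousLinearMap.ext
      intro v
      rw [opM_mul, opM_matOf, h.idem]
    have h2 := congrArg matOf h1
    rwa [matOf_opM, matOf_opM] at h2
  · refine Matrix.IsHermitian.ext fun i j => ?_
    have h1 := h.symm (EuclideanSpace.single i (1 : ℂ)) (EuclideanSpace.single j (1 : ℂ))
    rw [EuclideanSpace.inner_single_right, EuclideanSpace.inner_single_left] at h1
    simp only [one_mul, map_one] at h1
    simp only [matOf]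
    exact h1
  · rw [← finrank_range_opM, opM_matOf]
    exact h.rank
  · have h1 : opM (matOf x.1) x.2 = x.2 := by rw [opM_matOf]; exact h.mem
    exact congrArg WithLp.ofLp h1

end

private theorem continuous_opM {S : Type} [Fintype S] :
    Continuous (fun M : Matrix S S ℂ => opM M) := by
  have h : Continuous (({ toFun := fun M => opM M
                          map_add' := fun M N => by
                            apply ContinuousLinearMap.ext
                            intro v
                            ext p
                            simp [opM_apply, add_mul, Finset.sum_add_distrib]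
                          map_smul' := fun c M => by
                            apply ContinuousLinearMap.ext
                            intro v
                            ext p
                            simp [opM_apply, Finset.mul_sum, mul_assoc] } :
      Matrix S S ℂ →ₗ[ℂ] (EuclideanSpace ℂ S →L[ℂ] EuclideanSpace ℂ S))) :=
    LinearMap.continuous_of_finiteDimensional _
  exact h

private theorem continuous_matOf {S : Type} [Fintype S] :
    Continuous (fun T : EuclideanSpace ℂ S →L[ℂ] EuclideanSpace ℂ S => matOf T) := by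
  classical
  refine continuous_pi fun p => continuous_pi fun q => ?_
  have h1 : Continuous fun T : EuclideanSpace ℂ S →L[ℂ] EuclideanSpace ℂ S =>
      T (EuclideanSpace.single q (1 : ℂ)) := continuous_id.clm_apply continuous_const
  have h2 := (continuous_apply p).comp ((PiLp.continuous_ofLp 2 (fun _ : S => ℂ)).comp h1)
  exact h2

variable {G : Type} [Fintype G] {a k j m : ℕ}

/-- the two models of the total space -/
def eT : MUcoeff.Tot G k j m ≃ₜ Taut (Rg G (Fin k ⊕ Fin j)) m where
  toFun y := ⟨(opM y.1.1, WithLp.toLp 2 y.1.2), isTaut_opM y.2⟩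
  invFun x := ⟨(matOf x.1.1, fun p => x.1.2 p), isPt_matOf x.2⟩
  left_inv y := by
    apply Subtype.ext
    exact Prod.ext (matOf_opM _) rfl
  right_inv x := by
    apply Subtype.ext
    exact Prod.ext (opM_matOf _) rfl
  continuous_toFun := by
    refine Continuous.subtype_mk ?_ _
    exact (continuous_opM.comp (continuous_fst.comp continuous_subtype_val)).prodMk
      ((PiLp.continuous_toLp 2 _).comp (continuous_snd.comp continuous_subtype_val))
  continuous_invFun := by
    refine Continuous.subtype_mk ?_ _
    exact (continuous_matOf.comp (continuous_fst.comp continuous_subtype_val)).prodMk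
      ((PiLp.continuous_ofLp 2 _).comp (continuous_snd.comp continuous_subtype_val))

theorem eT_fst (y : MUcoeff.Tot G k j m) : (eT y).1.1 = opM y.1.1 := rfl

theorem eT_snd (y : MUcoeff.Tot G k j m) (p : (Fin k ⊕ Fin j) × G) : (eT y).1.2 p = y.1.2 p := rfl

/-- the two models of the sphere (finite points) -/
def eS : ((Fin k × G → ℂ) × (Fin a → ℝ)) ≃ₜ (Rg G (Fin k) × EuclideanSpace ℝ (Fin a)) where
  toFun x := (WithLp.toLp 2 x.1, WithLp.toLp 2 x.2)
  invFun x := (fun p => x.1 p, fun i => x.2 i)
  left_inv _ := rfl
  right_inv _ := rfl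
  continuous_toFun :=
    ((PiLp.continuous_toLp 2 _).comp continuous_fst).prodMk
      ((PiLp.continuous_toLp 2 _).comp continuous_snd)
  continuous_invFun :=
    ((PiLp.continuous_ofLp 2 _).comp continuous_fst).prodMk
      ((PiLp.continuous_ofLp 2 _).comp continuous_snd)

end

end EMU
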