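import Pool.Agent.Lib.EMU.S.Op

/-!
# MP_9aab3b_gt, module S.Rels: the relations `Moved`, `PlusW`, `PlusZero` in the operator model

PROOF. Equalities in `Taut` : `Subtype.ext`, `Prod.ext`; operators: `ContinuousLinearMap.ext`, evaluate at `v` and `p`; vectors: evaluate at `p`.
`moved_iff`: `(actL g ∘ opM M ∘ actL g⁻¹) v p = ∑ q, M (tl g⁻¹ p) q * v (tl g q)` (`act_apply`; `(act g⁻¹ v) (i, h) = v (i, g⁻¹⁻¹ * h)`) `= ∑ q, M (tl g⁻¹ p) (tl g⁻¹ q) * v q` (substitution by the
bijection `tl g`). Conversely, evaluate at basis vectors, or: `matOf` of both sides (`opM` is injective by `matOf_opM`).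
`plusW`: let `y' = (P', u')`. `stabP (upS k j) {inl last} P v p`: for `p = upV p₀` it is `(P (res v)) p₀ + 0 = ∑ q, P p₀ q * v (upV q)`; for `p = lastV g` it is `0 + v (lastV g)` (`ext_apply`, `ext_apply_not`,
`blk_apply_mem`, `blk_apply_not_mem`). And `∑ q, P' p q * v q` splits over the images of `upV` and `lastV` (every element of `(Fin (k+1) ⊕ Fin j) × G` is `upV q` or `lastV g`, in a unique way: `Fin.lastCases`;
a bijection of `Ix G k j ⊕ G` with `Ix G (k+1) j`, `Fintype.sum_equiv`, `Fintype.sum_sum_type`); `P' (lastV g) (upV q) = conj (P' (upV q) (lastV g)) = 0` (`herm`).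
The vector: `(ext φ u + blk B w) p`, `w = ext Sum.inl v'`, at `lastV g` it is `v' (last, g)`.
`plusZero`: the same with `B = ∅`, `P' (upU p) (lastU g) = conj (P' (lastU g) (upU p)) = 0`.
-/

set_option autoImplicit false

open scoped Topology OnePoint

namespace EMU

variable {G : Type} [Group G] [Fintype G] {k j m m' : ℕ}

private theorem rels_opM_inj {S : Type} [Fintype S] {M N : Matrix S S ℂ} (h : opM M = opM N) : M = N := by
  rw [← matOf_opM M, h, matOf_opM]

private theorem rels_act_op (g : G) (M : Matrix (MUcoeff.Ix G k j) (MUcoeff.Ix G k j) ℂ) :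
    actL g ∘L opM M ∘L actL g⁻¹ =
      opM ((fun p q => M (MUcoeff.tl g⁻¹ p) (MUcoeff.tl g⁻¹ q) :
        Matrix (MUcoeff.Ix G k j) (MUcoeff.Ix G k j) ℂ)) := by
  refine ContinuousLinearMap.ext fun v => PiLp.ext fun p => ?_
  rw [opM_apply]
  have h1 : (actL g ∘L opM M ∘L actL g⁻¹) v p =
      ∑ q, M (MUcoeff.tl g⁻¹ p) q * v (q.1, g⁻¹⁻¹ * q.2) := rfl
  rw [h1]
  symm
  refine Fintype.sum_equiv ((Equiv.refl (Fin k ⊕ Fin j)).prodCongr (Equiv.mulLeft g⁻¹)) _ _ fun q => ?_
  change M (MUcoeff.tl g⁻¹ p) (q.1, g⁻¹ * q.2) * v q =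
    M (MUcoeff.tl g⁻¹ p) (q.1, g⁻¹ * q.2) * v (q.1, g⁻¹⁻¹ * (g⁻¹ * q.2))
  rw [inv_mul_cancel_left]

theorem moved_iff (g : G) (y y' : MUcoeff.Tot G k j m) :
    MUcoeff.Moved g y y' ↔ eT y' = tautAct g (eT y) := by
  constructor
  · rintro ⟨h1, h2⟩
    refine Subtype.ext (Prod.ext ?_ ?_)
    · change opM y'.1.1 = actL g ∘L opM y.1.1 ∘L actL g⁻¹
      rw [rels_act_op]
      congr 1
      funext p q
      exact h1 p q
    · refine PiLp.ext fun p => ?_
      exact h2 p
  · intro h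
    have h1 : opM y'.1.1 = actL g ∘L opM y.1.1 ∘L actL g⁻¹ :=
      congrArg (fun x : Taut (Rg G (Fin k ⊕ Fin j)) m => x.1.1) h
    have h2 := congrArg (fun x : Taut (Rg G (Fin k ⊕ Fin j)) m => x.1.2) h
    rw [rels_act_op] at h1
    have h3 := rels_opM_inj h1
    refine ⟨fun p q => ?_, fun p => ?_⟩
    · rw [h3]
    · exact congrArg (fun u : Rg G (Fin k ⊕ Fin j) => u p) h2

private theorem rels_sumV (F : MUcoeff.Ix G (k + 1) j → ℂ) :
    ∑ q, F q = ∑ q : MUcoeff.Ix G k j, F (MUcoeff.upV q) + ∑ g : G, F (MUcoeff.lastV g) := by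
  rw [Fintype.sum_prod_type, Fintype.sum_sum_type, Fin.sum_univ_castSucc, Fintype.sum_prod_type, Fintype.sum_sum_type]
  exact add_right_comm _ _ _

private theorem rels_sumU (F : MUcoeff.Ix G k (j + 1) → ℂ) :
    ∑ q, F q = ∑ q : MUcoeff.Ix G k j, F (MUcoeff.upU q) + ∑ g : G, F (MUcoeff.lastU g) := by
  rw [Fintype.sum_prod_type, Fintype.sum_sum_type, Fin.sum_univ_castSucc, Fintype.sum_prod_type, Fintype.sum_sum_type]
  exact (add_assoc _ _ _).symm

private theorem rels_casesV (p : MUcoeff.Ix G (k + 1) j) :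
    (∃ q : MUcoeff.Ix G k j, p = MUcoeff.upV q) ∨ ∃ g : G, p = MUcoeff.lastV g := by
  obtain ⟨i | i, g⟩ := p
  · induction i using Fin.lastCases with
    | last => exact Or.inr ⟨g, rfl⟩
    | cast i => exact Or.inl ⟨(Sum.inl i, g), rfl⟩
  · exact Or.inl ⟨(Sum.inr i, g), rfl⟩

private theorem rels_casesU (p : MUcoeff.Ix G k (j + 1)) :
    (∃ q : MUcoeff.Ix G k j, p = MUcoeff.upU q) ∨ ∃ g : G, p = MUcoeff.lastU g := by
  obtain ⟨i | i, g⟩ := p
  · exact Or.inl ⟨(Sum.inl i, g), rfl⟩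
  · induction i using Fin.lastCases with
    | last => exact Or.inr ⟨g, rfl⟩
    | cast i => exact Or.inl ⟨(Sum.inr i, g), rfl⟩

private theorem rels_not_rangeS : ¬ ∃ a, upS k j a = Sum.inl (Fin.last k) := by
  rintro ⟨a, ha⟩
  exact upS_not_mem k j a ha

private theorem rels_not_rangeI : ¬ ∃ a, upI k j a = Sum.inr (Fin.last j) := by
  rintro ⟨a | a, ha⟩
  · exact Sum.inl_ne_inr ha
  · exact Fin.castSucc_ne_last a (Sum.inr_injective ha)

private theorem rels_stabP_upV (P : Rg G (Fin k ⊕ Fin j) →L[ℂ] Rg G (Fin k ⊕ Fin j))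
    (w : Rg G (Fin (k + 1) ⊕ Fin j)) (q : MUcoeff.Ix G k j) :
    stabP (upS k j) {Sum.inl (Fin.last k)} P w (MUcoeff.upV q) = P (res (upS k j) w) q := by
  have h1 : stabP (upS k j) {Sum.inl (Fin.last k)} P w (MUcoeff.upV q) =
      ext (upS k j) (P (res (upS k j) w)) (upS k j q.1, q.2) + blk {Sum.inl (Fin.last k)} w (upS k j q.1, q.2) := rfl
  rw [h1, ext_apply (upS_inj k j), blk_apply_not_mem w (upS_not_mem k j q.1), add_zero]

private theorem rels_stabP_lastV (P : Rg G (Fin k ⊕ Fin j) →L[ℂ] Rg G (Fin k ⊕ Fin j))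
    (w : Rg G (Fin (k + 1) ⊕ Fin j)) (g : G) :
    stabP (upS k j) {Sum.inl (Fin.last k)} P w (MUcoeff.lastV g) = w (MUcoeff.lastV g) := by
  have h1 : stabP (upS k j) {Sum.inl (Fin.last k)} P w (MUcoeff.lastV g) =
      ext (upS k j) (P (res (upS k j) w)) (Sum.inl (Fin.last k), g) +
        blk {Sum.inl (Fin.last k)} w (Sum.inl (Fin.last k), g) := rfl
  have h2 : ((Sum.inl (Fin.last k), g) : (Fin (k + 1) ⊕ Fin j) × G).1 ∈
      ({Sum.inl (Fin.last k)} : Set (Fin (k + 1) ⊕ Fin j)) := Set.mem_singleton _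
  rw [h1, ext_apply_not _ rels_not_rangeS, blk_apply_mem w h2, zero_add]
  rfl

theorem plusW {v : Rg G (Fin (k + 1))} {y : MUcoeff.Tot G k j m} {y' : MUcoeff.Tot G (k + 1) j m'}
    (h : MUcoeff.PlusW (fun g => v (Fin.last k, g)) y y')
    (hm : m' = m + Nat.card ({Sum.inl (Fin.last k)} : Set (Fin (k + 1) ⊕ Fin j)) * Fintype.card G) :
    eT y' = stabTaut (upS_inj k j) (upS_not_mem k j) hm (eT y) (ext Sum.inl v) := by
  classical
  obtain ⟨h1, h2, h3, h4, h5, h6⟩ := h
  have hherm : ∀ (g : G) (q : MUcoeff.Ix G k j), y'.1.1 (MUcoeff.lastV g) (MUcoeff.upV q) = 0 := by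
    intro g q
    rw [← y'.2.herm.apply, h4, star_zero]
  refine Subtype.ext (Prod.ext ?_ ?_)
  · change opM y'.1.1 = stabP (upS k j) {Sum.inl (Fin.last k)} (opM y.1.1)
    refine ContinuousLinearMap.ext fun w => PiLp.ext fun p => ?_
    rw [opM_apply, rels_sumV]
    rcases rels_casesV p with ⟨q, rfl⟩ | ⟨g, rfl⟩
    · rw [rels_stabP_upV, opM_apply]
      rw [Finset.sum_eq_zero (s := Finset.univ)
        (f := fun g : G => y'.1.1 (MUcoeff.upV q) (MUcoeff.lastV g) * w (MUcoeff.lastV g))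
        (fun g _ => by rw [h4, zero_mul]), add_zero]
      refine Finset.sum_congr rfl fun r _ => ?_
      rw [h1]
      rfl
    · rw [rels_stabP_lastV]
      rw [Finset.sum_eq_zero (s := Finset.univ)
        (f := fun q : MUcoeff.Ix G k j => y'.1.1 (MUcoeff.lastV g) (MUcoeff.upV q) * w (MUcoeff.upV q))
        (fun q _ => by rw [hherm, zero_mul]), zero_add, Finset.sum_eq_single g]
      · rw [h2, one_mul]
      · intro r _ hr
        rw [h3 g r hr.symm, zero_mul]
      · intro hc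
        exact absurd (Finset.mem_univ g) hc
  · change (eT y').1.2 = ext (upS k j) (eT y).1.2 + blk {Sum.inl (Fin.last k)} (ext Sum.inl v)
    refine PiLp.ext fun p => ?_
    rw [eT_snd]
    rcases rels_casesV p with ⟨q, rfl⟩ | ⟨g, rfl⟩
    · rw [h5]
      have e1 : (ext (upS k j) (eT y).1.2 + blk {Sum.inl (Fin.last k)} (ext Sum.inl v) :
            Rg G (Fin (k + 1) ⊕ Fin j)) (MUcoeff.upV q) =
          ext (upS k j) (eT y).1.2 (upS k j q.1, q.2) +
            blk {Sum.inl (Fin.last k)} (ext Sum.inl v) (upS k j q.1, q.2) := rfl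
      rw [e1, ext_apply (upS_inj k j), blk_apply_not_mem _ (upS_not_mem k j q.1), add_zero]
      rfl
    · rw [h6]
      have h7 : ((Sum.inl (Fin.last k), g) : (Fin (k + 1) ⊕ Fin j) × G).1 ∈
          ({Sum.inl (Fin.last k)} : Set (Fin (k + 1) ⊕ Fin j)) := Set.mem_singleton _
      have e1 : (ext (upS k j) (eT y).1.2 + blk {Sum.inl (Fin.last k)} (ext Sum.inl v) :
            Rg G (Fin (k + 1) ⊕ Fin j)) (MUcoeff.lastV g) =
          ext (upS k j) (eT y).1.2 (Sum.inl (Fin.last k), g) +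
            blk {Sum.inl (Fin.last k)} (ext Sum.inl v) (Sum.inl (Fin.last k), g) := rfl
      rw [e1, ext_apply_not _ rels_not_rangeS, blk_apply_mem _ h7, zero_add,
        ext_apply Sum.inl_injective]

theorem plusZero {y : MUcoeff.Tot G k j m} {y' : MUcoeff.Tot G k (j + 1) m}
    (h : MUcoeff.PlusZero y y')
    (hm : m = m + Nat.card (∅ : Set (Fin k ⊕ Fin (j + 1))) * Fintype.card G) :
    eT y' = stabTaut (upI_inj k j) (upI_not_mem k j) hm (eT y) 0 := by
  classical
  obtain ⟨h1, h2, h3, h4⟩ := h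
  have hherm : ∀ (g : G) (q : MUcoeff.Ix G k j), y'.1.1 (MUcoeff.upU q) (MUcoeff.lastU g) = 0 := by
    intro g q
    rw [← y'.2.herm.apply, h2, star_zero]
  refine Subtype.ext (Prod.ext ?_ ?_)
  · change opM y'.1.1 = stabP (upI k j) ∅ (opM y.1.1)
    refine ContinuousLinearMap.ext fun w => PiLp.ext fun p => ?_
    rw [opM_apply]
    rcases rels_casesU p with ⟨q, rfl⟩ | ⟨g, rfl⟩
    · have e1 : stabP (upI k j) ∅ (opM y.1.1) w (MUcoeff.upU q) =
          ext (upI k j) (opM y.1.1 (res (upI k j) w)) (upI k j q.1, q.2) + blk ∅ w (upI k j q.1, q.2) := rfl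
      rw [e1, ext_apply (upI_inj k j), blk_apply_not_mem w (Set.notMem_empty _), add_zero, rels_sumU, opM_apply]
      rw [Finset.sum_eq_zero (s := Finset.univ)
        (f := fun g : G => y'.1.1 (MUcoeff.upU q) (MUcoeff.lastU g) * w (MUcoeff.lastU g))
        (fun g _ => by rw [hherm, zero_mul]), add_zero]
      refine Finset.sum_congr rfl fun r _ => ?_
      rw [h1]
      rfl
    · have e1 : stabP (upI k j) ∅ (opM y.1.1) w (MUcoeff.lastU g) =
          ext (upI k j) (opM y.1.1 (res (upI k j) w)) (Sum.inr (Fin.last j), g) +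
            blk ∅ w (Sum.inr (Fin.last j), g) := rfl
      rw [e1, ext_apply_not _ rels_not_rangeI, blk_apply_not_mem w (Set.notMem_empty _), add_zero]
      refine Finset.sum_eq_zero fun q _ => ?_
      rw [h2, zero_mul]
  · change (eT y').1.2 = ext (upI k j) (eT y).1.2 + blk ∅ 0
    refine PiLp.ext fun p => ?_
    rw [eT_snd, map_zero, add_zero]
    rcases rels_casesU p with ⟨q, rfl⟩ | ⟨g, rfl⟩
    · rw [h3]
      have e1 : (ext (upI k j) (eT y).1.2) (MUcoeff.upU q) = ext (upI k j) (eT y).1.2 (upI k j q.1, q.2) := rfl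
      rw [e1, ext_apply (upI_inj k j)]
      rfl
    · rw [h4]
      have e1 : (ext (upI k j) (eT y).1.2) (MUcoeff.lastU g) =
          ext (upI k j) (eT y).1.2 (Sum.inr (Fin.last j), g) := rfl
      rw [e1, ext_apply_not _ rels_not_rangeI]

end EMU
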